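import Pool.Agent.H58.SO.Bridge

/-!
# From the core situation to the core of part B
-/

set_option autoImplicit false

namespace Pool.Agent.H92.SO

open Pool.Agent.H68.BP Pool.Agent.H58.SF Pool.Agent.H53.GC Pool.Agent.H53.NR
open Pool.Agent.H58.SO
open Classical

section

variable {V X Θ : Type} {M : ℕ} [LinearOrder V]

/-- the function of part B: vertices of types in `D` are new, unless the rows are equal -/
noncomputable def hp (B : Bs V X Θ M) (D : Set Θ)
    (h : (Fin 6 → V) → (Fin 6 → V) → X × Ordering) (v w : Fin 6 → V) : Θ ⊕ X :=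
  if v = w then Sum.inl (B.L (h v w).1) else
  if B.L (h v w).1 ∈ D ∨ B.Rt (h v w).1 ∈ D then
    Sum.inr (B.fr (B.L (h v w).1) (B.Rt (h v w).1)) else
  if (h v w).2 = Ordering.eq then Sum.inl (B.L (h v w).1) else Sum.inr (h v w).1

theorem isC_congr {B : Bs V X Θ M} {P : Pool.Agent.H57.SO.Pal Θ X} {c : V → V → Θ ⊕ X}
    (hI : IsC B P c) {x y x' y' : V} (h : c x y = c x' y') :
    (x = y ↔ x' = y') ∧ B.c x y = B.c x' y' := by
  rcases eq_or_ne x y with h1 | h1
  · subst h1
    rw [hI.1] at h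
    rcases eq_or_ne x' y' with h2 | h2
    · subst h2
      rw [hI.1] at h
      refine ⟨⟨fun _ => rfl, fun _ => rfl⟩, ?_⟩
      rw [B.diag, B.diag, Sum.inl.inj h]
    · rw [hI.2.1 _ _ h2] at h
      exact absurd h (by simp)
  · rw [hI.2.1 _ _ h1] at h
    rcases eq_or_ne x' y' with h2 | h2
    · subst h2
      rw [hI.1] at h
      exact absurd h (by simp)
    · rw [hI.2.1 _ _ h2] at h
      exact ⟨⟨fun h3 => absurd h3 h1, fun h3 => absurd h3 h2⟩, Sum.inr.inj h⟩

theorem sameO_of_same {B : Bs V X Θ M} {P : Pool.Agent.H57.SO.Pal Θ X} {c : V → V → Θ ⊕ X}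
    (hI : IsC B P c) {I : Type} {x y : I → V} (h : Pool.Agent.H57.SO.Same c x y) :
    SameO B ∅ x y := by
  refine sameO_empty.2 fun a b => ?_
  rw [B.ct_eq_ct]
  exact ⟨(isC_congr hI (h a b).2).2.symm, (h a b).1.symm, (h b a).1.symm⟩

/-- the values of `hp` at rows of a combination -/
theorem comb_aux (hSCF : T_SCF) (hEXT : T_EXT) {σ : Sig} {B : Bs V X Θ M} {𝔸 : Str σ V}
    {D : Set Θ} {h : (Fin 6 → V) → (Fin 6 → V) → X × Ordering} (hb : Blind B 𝔸 D)
    (hpm : PM B 𝔸 h) {P : Pool.Agent.H57.SO.Pal Θ X} {c : V → V → Θ ⊕ X} (hI : IsC B P c)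
    (W : Type) [Finite W] (G : Fin 6 → W → V) :
    ∃ ψ : W → V, Pool.Agent.H57.EQ.Cx 𝔸 G ψ ∧
      ∀ u w, c (ψ u) (ψ w) = hp B D h (fun i => G i u) (fun i => G i w) := by
  obtain ⟨γ, hγ, hr⟩ := hEXT σ V X Θ M B 𝔸 D hb (Fin 6) h hpm W (fun w i => G i w)
  have hfin : Finite (Set.range (fun (w : W) (i : Fin 6) => G i w)) := inferInstance
  obtain ⟨n, ⟨e⟩⟩ := Finite.exists_equiv_fin (Set.range (fun (w : W) (i : Fin 6) => G i w))
  let num : W → ℕ := fun w => (e ⟨fun i => G i w, ⟨w, rfl⟩⟩).val + 1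
  have hnum : ∀ u w, num u = num w ↔ (fun i => G i u) = (fun i => G i w) := by
    intro u w
    constructor
    · intro h1
      have h2 := e.injective (Fin.ext (Nat.succ.inj h1))
      exact congrArg Subtype.val h2
    · intro h1
      have h2 : (⟨fun i => G i u, ⟨u, rfl⟩⟩ : Set.range (fun (w : W) (i : Fin 6) => G i w)) =
          ⟨fun i => G i w, ⟨w, rfl⟩⟩ := Subtype.ext h1
      show (e _).val + 1 = (e _).val + 1
      rw [h2]
  have hpos : ∀ w, num w ≠ 0 := fun w => Nat.succ_ne_zero _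
  obtain ⟨z, hz⟩ := hSCF V X Θ M B W Unit V (fun w _ => γ w)
    (fun w _ => if B.vt (γ w) ∈ D then num w else 0) (fun w _ => γ w)
    (fun k => if k = 0 then Set.univ else ∅) (fun a l b l' _ => Iff.rfl)
  have htyp : ∀ w, B.vt (z w ()) = B.vt (γ w) := fun w => hz.typ w ()
  have heq : ∀ u w, z u () = z w () ↔
      (if B.vt (γ u) ∈ D then num u else 0) = (if B.vt (γ w) ∈ D then num w else 0) ∧
        γ u = γ w := fun u w => hz.eq_iff u () w ()
  have hcol := fun u w => hz.col u () w ()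
  have hSD : SameD B D γ (fun w => z w ()) := by
    refine ⟨htyp, fun a b ha hb' => ?_⟩
    have h1 := heq a b
    have h2 := hcol a b
    simp only [if_neg ha, if_neg hb', if_true, Set.inter_self, Set.univ_nonempty, true_and]
      at h1 h2
    refine ⟨h1, ?_⟩
    by_cases h3 : γ a = γ b
    · rw [h2.2 (fun h4 => h4 h3), h3, B.diag]
    · exact h2.1 h3
  refine ⟨fun w => z w (), ?_, fun u w => ?_⟩
  · intro l y hy
    have h1 := hr (some l) y hy
    exact hb l _ _ h1 (hSD.comp y)
  · show c (z u ()) (z w ()) = hp B D h (fun i => G i u) (fun i => G i w)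
    have h1 : B.ct (γ u) (γ w) = h (fun i => G i u) (fun i => G i w) := hγ u w
    have hL : B.L (h (fun i => G i u) (fun i => G i w)).1 = B.vt (γ u) := by
      rw [← h1, B.ct_fst, B.left]
    have hR : B.Rt (h (fun i => G i u) (fun i => G i w)).1 = B.vt (γ w) := by
      rw [← h1, B.ct_fst, B.right]
    have hO : (h (fun i => G i u) (fun i => G i w)).2 = Ordering.eq ↔ γ u = γ w := by
      rw [← h1, B.ct_snd_eq]
    unfold hp
    rw [hL, hR]
    by_cases hrow : (fun i => G i u) = (fun i => G i w)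
    · rw [if_pos hrow]
      have h2 : B.ct (γ u) (γ w) = B.ct (γ u) (γ u) := by
        have h3 : B.ct (γ u) (γ u) = h (fun i => G i u) (fun i => G i u) := hγ u u
        rw [h1, h3, ← hrow]
      have h3 : γ u = γ w := (B.ct_eq_imp h2).1.2 rfl
      have h4 : z u () = z w () := by
        refine (heq u w).2 ⟨?_, h3⟩
        rw [h3, (hnum u w).2 hrow]
      rw [← h4, hI.1, htyp]
    · rw [if_neg hrow]
      by_cases hD : B.vt (γ u) ∈ D ∨ B.vt (γ w) ∈ D
      · rw [if_pos hD]
        have hlev : (if B.vt (γ u) ∈ D then num u else 0) ≠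
            (if B.vt (γ w) ∈ D then num w else 0) := by
          intro h2
          by_cases h3 : B.vt (γ u) ∈ D
          · by_cases h4 : B.vt (γ w) ∈ D
            · rw [if_pos h3, if_pos h4] at h2
              exact hrow ((hnum u w).1 h2)
            · rw [if_pos h3, if_neg h4] at h2
              exact hpos u h2
          · by_cases h4 : B.vt (γ w) ∈ D
            · rw [if_neg h3, if_pos h4] at h2
              exact hpos w h2.symm
            · exact hD.elim h3 h4
        have hne : z u () ≠ z w () := fun h2 => hlev ((heq u w).1 h2).1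
        rw [hI.2.1 _ _ hne]
        congr 1
        refine (hcol u w).2 ?_
        rintro ⟨⟨i, hi1, hi2⟩, -⟩
        by_cases h3 : B.vt (γ u) ∈ D
        · simp only [if_pos h3, if_neg (hpos u)] at hi1
          exact hi1
        · have h4 : B.vt (γ w) ∈ D := hD.resolve_left h3
          simp only [if_pos h4, if_neg (hpos w)] at hi2
          exact hi2
      · rw [if_neg hD]
        rw [not_or] at hD
        have h2 := hSD.2 u w hD.1 hD.2
        by_cases h3 : γ u = γ w
        · rw [if_pos (hO.2 h3)]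
          have h4 : z u () = z w () := h2.1.2 h3
          rw [← h4, hI.1, htyp]
        · rw [if_neg (fun h4 => h3 (hO.1 h4))]
          have h4 : z u () ≠ z w () := fun h5 => h3 (h2.1.1 h5)
          rw [hI.2.1 _ _ h4]
          congr 1
          rw [← h1, B.ct_fst]
          exact h2.2

/-- the types of the values -/
theorem ext_types (hEXT : T_EXT) {σ : Sig} {B : Bs V X Θ M} {𝔸 : Str σ V}
    {D : Set Θ} {h : (Fin 6 → V) → (Fin 6 → V) → X × Ordering} (hb : Blind B 𝔸 D)
    (hpm : PM B 𝔸 h) (z z' : Fin 6 → V) :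
    B.L (h z z').1 = B.L (h z z).1 ∧ B.Rt (h z z').1 = B.L (h z' z').1 := by
  obtain ⟨γ, hγ, -⟩ := hEXT σ V X Θ M B 𝔸 D hb (Fin 6) h hpm Bool
    (fun b => if b = true then z else z')
  have h1 : B.ct (γ true) (γ false) = h z z' := by
    have := hγ true false
    simpa using this
  have h2 : B.ct (γ true) (γ true) = h z z := by
    have := hγ true true
    simpa using this
  have h3 : B.ct (γ false) (γ false) = h z' z' := by
    have := hγ false false
    simpa using this
  rw [← h1, ← h2, ← h3]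
  simp only [B.ct_fst, B.left, B.right, and_self]

/-- free blocks of part B are blocks -/
theorem zb_of_fbl {B : Bs V X Θ M} {P : Pool.Agent.H57.SO.Pal Θ X} {c : V → V → Θ ⊕ X}
    (hI : IsC B P c) {s : Θ} {z : Fin 6 → V} (hz : Pool.Agent.H57.SO.FBl P c s z) :
    (∀ l, B.vt (z l) = s) ∧ ∃ κ, ZB B κ z := by
  have hv : ∀ l, B.vt (z l) = s := by
    intro l
    have h1 := hz.1 l
    rw [hI.1] at h1
    exact Sum.inl.inj h1
  refine ⟨hv, fun l => (Finset.univ.filter (fun l' => z l' < z l)).card, fun l l' => ?_⟩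
  have hlt : ∀ l l', z l < z l' → (Finset.univ.filter (fun l'' => z l'' < z l)).card <
      (Finset.univ.filter (fun l'' => z l'' < z l')).card := by
    intro l l' h1
    refine Finset.card_lt_card ((Finset.ssubset_iff_of_subset ?_).2 ⟨l, ?_, ?_⟩)
    · intro a ha
      rw [Finset.mem_filter] at ha ⊢
      exact ⟨ha.1, ha.2.trans h1⟩
    · rw [Finset.mem_filter]
      exact ⟨Finset.mem_univ l, h1⟩
    · rw [Finset.mem_filter]
      exact fun h2 => lt_irrefl _ h2.2
  constructor
  · intro he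
    rcases lt_trichotomy (z l) (z l') with h1 | h1 | h1
    · exact absurd he (ne_of_lt (hlt l l' h1))
    · exact h1
    · exact absurd he.symm (ne_of_lt (hlt l' l h1))
  · intro he
    have h1 : z l < z l' := by
      rcases lt_trichotomy (z l) (z l') with h1 | h1 | h1
      · exact h1
      · beta_reduce at he
        rw [h1] at he
        exact absurd he (lt_irrefl _)
      · exact absurd he (lt_asymm (hlt l' l h1))
    refine ⟨h1, ?_⟩
    have h2 := hz.2 l l' (ne_of_lt h1)
    rw [hI.2.1 _ _ (ne_of_lt h1), hI.2.2.1] at h2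
    rw [Sum.inr.inj h2, hv, hv]

end

theorem pat_eq_iff {V : Type} (r : Fin 3) (x y x' y' : V) :
    pat r x y = pat r x' y' ↔ x = x' ∧ y = y' := by
  constructor
  · intro h
    fin_cases r
    · exact ⟨by simpa [pat] using congrFun h 0, by simpa [pat] using congrFun h 2⟩
    · exact ⟨by simpa [pat] using congrFun h 0, by simpa [pat] using congrFun h 1⟩
    · exact ⟨by simpa [pat] using congrFun h 1, by simpa [pat] using congrFun h 0⟩
  · rintro ⟨rfl, rfl⟩
    rfl

theorem pf_COR (hSCF : Pool.Agent.H58.SO.T_SCF) (hEXT : Pool.Agent.H58.SO.T_EXT)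
    (hLMU : Pool.Agent.H58.SO.T_LMU) : Pool.Agent.H58.SO.T_COR := by
  intro σ V X Θ _ M B 𝔸 D h hC hR hlast P c hI
  refine ⟨hp B D h, ⟨⟨?_, ?_⟩, ?_, ?_, ?_, ?_⟩⟩
  · intro v w v' w' hs
    have h1 : h v w = h v' w' :=
      hC.sit.tid.mono (Set.empty_subset D) v w v' w' (sameO_of_same hI hs)
    have h2 : v = w ↔ v' = w' := by
      rw [funext_iff, funext_iff]
      refine forall_congr' fun l => ?_
      exact (isC_congr hI (hs (Sum.inl l) (Sum.inr l)).2).1
    unfold hp
    rw [h1]
    by_cases h3 : v = w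
    · rw [if_pos h3, if_pos (h2.1 h3)]
    · rw [if_neg h3, if_neg (fun h4 => h3 (h2.2 h4))]
  · intro W _ G
    exact comb_aux hSCF hEXT hC.sit.blind hC.sit.pm hI W G
  · intro r x y x' y'
    have h1 := hC.sit.exact r x y x' y'
    unfold hp
    rw [h1]
    by_cases h3 : x = x' ∧ y = y'
    · rw [if_pos ((pat_eq_iff r x y x' y').2 h3), if_pos ((pat_eq_iff 0 x y x' y').2 h3)]
    · rw [if_neg (fun h4 => h3 ((pat_eq_iff r x y x' y').1 h4)),
        if_neg (fun h4 => h3 ((pat_eq_iff 0 x y x' y').1 h4))]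
  · intro γ hγ
    obtain ⟨m, hm, hm'⟩ := hLMU σ V X Θ M B 𝔸 (hC.sit.blind.mono (Set.empty_subset D)) hR γ (by
      intro W _ G
      obtain ⟨ψ, h1, h2⟩ := hγ W G
      refine ⟨ψ, h1, fun w => ?_⟩
      have h3 := h2 w (B.vt (G w)) (hI.1 _)
      rw [hI.1] at h3
      exact Sum.inl.inj h3)
    have h1 : tm B B m = γ := funext hm'
    rw [← h1]
    exact hC.ne1 m hm
  · intro s z hz
    obtain ⟨hv, κ, hκ⟩ := zb_of_fbl hI hz
    unfold hp
    rw [if_pos rfl, hC.pur κ s z hκ hv]
  · intro s z z' hz hz' hne s'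
    obtain ⟨hv, κ, hκ⟩ := zb_of_fbl hI hz
    obtain ⟨hv', κ', hκ'⟩ := zb_of_fbl hI hz'
    have h0 : z ≠ z' := fun h1 => hne 0 0 (congrFun h1 0)
    have h1 := ext_types hEXT hC.sit.blind hC.sit.pm z z'
    rw [hC.pur κ s z hκ hv, hC.pur κ' s z' hκ' hv'] at h1
    unfold hp
    rw [if_neg h0, h1.1, h1.2]
    by_cases hD : s ∈ D
    · rw [if_pos (Or.inl hD)]
      simp
    · rw [if_neg (by simpa using hD), if_neg (hlast κ κ' s z z' hD hv hv' hκ hκ' hne)]
      simp

end Pool.Agent.H92.SO
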